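import Pool.Agent.H269.NBCK.Low

/-!
The case `c = 2 b`.
-/

set_option autoImplicit false

namespace Pool.Agent.H269.NBCK

open Finset

/-- the upper bound for `c = 2 b`, with `b = g β`, `k = 2 g μ`, `β` odd (`β + 2 μ = 2 m + 1`) -/
lemma double_upper {b k g β μ m : ℕ} (hg : 0 < g) (hμ : 0 < μ) (hβ : 0 < β)
    (hb : b = g * β) (hk : k = g * (2 * μ)) (hm : β + 2 * μ = 2 * m + 1) :
    ¬ Bad b (2 * b) k (b + k - g) := by
  rintro ⟨a, ⟨h1, h2, h3⟩, h4⟩
  obtain ⟨n, hn⟩ : ∃ n, n = b + k - g := ⟨_, rfl⟩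
  rw [← hn] at h2 h3 h4
  obtain ⟨T, hT⟩ : ∃ T, T = 2 * m + 1 := ⟨_, rfl⟩
  have hk0 : 0 < k := by rw [hk]; positivity
  have hbk : b + k = g * T := by rw [hb, hk, hT, ← hm]; ring
  have hn2 : n = g * (T - 1) := by
    rw [hn, hbk, Nat.mul_sub, mul_one]
  have hidx : ∀ t, t < T → g * t ≤ n := by
    intro t ht
    rw [hn2]
    exact Nat.mul_le_mul_left _ (by omega)
  let u : ℕ → ℤ := fun t => a (g * t) - 2 * (g * t : ℕ)
  have hu : ∀ t, u t = a (g * t) - 2 * (g * t : ℕ) := fun t => rfl
  have hstep : ∀ t, t < T → u ((t + β) % T) ≤ u t := by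
    intro t ht
    rcases Nat.lt_or_ge (t + β) T with h | h
    · rw [Nat.mod_eq_of_lt h, hu, hu]
      have e1 : g * (t + β) = g * t + b := by rw [hb]; ring
      rw [e1]
      have := h3 (g * t) (by rw [← e1]; exact hidx _ h)
      push_cast at this ⊢
      linarith
    · have hx : (t + β) % T = t - 2 * μ := by
        rw [Nat.mod_eq_sub_mod h, Nat.mod_eq_of_lt (by omega)]
        omega
      rw [hx, hu, hu]
      obtain ⟨t', ht'⟩ : ∃ t', t = t' + 2 * μ := ⟨t - 2 * μ, by omega⟩
      rw [ht', Nat.add_sub_cancel]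
      have e1 : g * (t' + 2 * μ) = g * t' + k := by rw [hk]; ring
      rw [e1]
      have := spread h2 h4 hk0 (g * t') (by rw [← e1, ← ht']; exact hidx _ ht)
      push_cast at this ⊢
      linarith
  have hT0 : 0 < T := by omega
  have hanti : ∀ p, u (((p + 1) * β) % T) ≤ u ((p * β) % T) := by
    intro p
    have := hstep ((p * β) % T) (Nat.mod_lt _ hT0)
    rwa [Nat.mod_add_mod, show p * β + β = (p + 1) * β by ring] at this
  have hanti' : ∀ p x, u (((p + x) * β) % T) ≤ u ((p * β) % T) := by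
    intro p x
    induction x with
    | zero => simp
    | succ x ih => exact le_trans (hanti (p + x)) ih
  have hconst : u ((m * β) % T) = 0 := by
    have e0 : u 0 = 0 := by rw [hu]; simp [h1]
    have e1 := hanti' 0 m
    rw [zero_add, zero_mul, Nat.zero_mod] at e1
    have e2 := hanti' m (m * (T - 1))
    have e3 : m + m * (T - 1) = m * T := by
      obtain ⟨T', rfl⟩ : ∃ T', T = T' + 1 := ⟨T - 1, by omega⟩
      rw [Nat.add_sub_cancel]; ring
    rw [e3, show m * T * β = T * (m * β) by ring, Nat.mul_mod_right] at e2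
    rw [e0] at e1 e2
    exact le_antisymm e1 e2
  have hmβ : m * β = T * (m - μ) + μ := by
    obtain ⟨x, hx⟩ : ∃ x, m = μ + x := ⟨m - μ, by omega⟩
    have hβx : β = 2 * x + 1 := by omega
    rw [hT, hβx, hx, Nat.add_sub_cancel_left]
    ring
  rw [hmβ, Nat.mul_add_mod, Nat.mod_eq_of_lt (by omega), hu] at hconst
  apply h4
  refine ⟨0, g * μ, by positivity, ?_, ?_⟩
  · exact hidx _ (by omega)
  · rw [h1, hk]
    push_cast at hconst ⊢
    linarith

/-- the lower bound for `c = 2 b` -/
lemma double_lower {b k g β μ m : ℕ} (hg : 0 < g) (hμ : 0 < μ) (hβ : 0 < β)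
    (hb : b = g * β) (hk : k = g * (2 * μ)) (hm : β + 2 * μ = 2 * m + 1)
    (hco : Nat.Coprime β (2 * μ)) : Bad b (2 * b) k (b + k - g - 1) := by
  obtain ⟨n, hn⟩ : ∃ n, n = b + k - g - 1 := ⟨_, rfl⟩
  rw [← hn]
  obtain ⟨T, hT⟩ : ∃ T, T = 2 * m + 1 := ⟨_, rfl⟩
  have hbk : b + k = g * T := by rw [hb, hk, hT, ← hm]; ring
  have hT3 : 3 ≤ T := by omega
  have hgT : g * T = g * (T - 1) + g := by
    obtain ⟨T', rfl⟩ : ∃ T', T = T' + 1 := ⟨T - 1, by omega⟩
    rw [Nat.add_sub_cancel]; ring
  have hgT1 : 0 < g * (T - 1) := Nat.mul_pos hg (by omega)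
  have hn2 : n + 1 = g * (T - 1) := by omega
  have hcoT : Nat.Coprime β T := by
    rw [hT, ← hm]
    exact (Nat.coprime_add_self_right).mpr hco |> fun h => by rwa [add_comm] at h
  obtain ⟨v, _, hv⟩ := Nat.exists_mul_mod_eq_one_of_coprime hcoT (by omega)
  let w : ℕ → ℕ := fun t => ((t + 1) * v) % T
  have hw : ∀ t, w t = ((t + 1) * v) % T := fun t => rfl
  have hwT : ∀ t, w t < T := fun t => Nat.mod_lt _ (by omega)
  -- nonvanishing
  have hw0 : ∀ t, t + 1 < T → 0 < w t := by
    intro t ht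
    rcases Nat.eq_zero_or_pos (w t) with h | h
    · exfalso
      have h5 : T ∣ (t + 1) * v := Nat.dvd_of_mod_eq_zero h
      have h6 : T ∣ (t + 1) * (β * v) := by
        rw [show (t + 1) * (β * v) = β * ((t + 1) * v) by ring]
        exact Dvd.dvd.mul_left h5 β
      have h7 : T ∣ t + 1 := by
        have h8 := Nat.div_add_mod (β * v) T
        rw [hv] at h8
        rw [← h8, mul_add, mul_one] at h6
        have h9 : T ∣ (t + 1) * (T * (β * v / T)) :=
          Dvd.intro _ (by ring : T * ((t + 1) * (β * v / T)) = _)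
        exact (Nat.dvd_add_right h9).mp h6
      have := Nat.le_of_dvd (by omega) h7
      omega
    · exact h
  have hwβ : ∀ t, t + β + 1 < T → w (t + β) = w t + 1 := by
    intro t ht
    have e1 : w (t + β) = (w t + 1) % T := by
      rw [hw, hw, show (t + β + 1) * v = (t + 1) * v + β * v by ring, Nat.add_mod, hv,
        Nat.mod_add_mod]
    have e2 := hw0 (t + β) ht
    have e3 := hwT t
    rcases Nat.lt_or_ge (w t + 1) T with h | h
    · rw [e1, Nat.mod_eq_of_lt h]
    · have : w t + 1 = T := by omega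
      rw [this, Nat.mod_self] at e1
      omega
  have hμv : (μ * v) % T = m := by
    have e1 := Nat.mod_lt (μ * v) (show 0 < T by omega)
    have e2 : T ∣ 2 * ((μ * v) % T) + 1 := by
      have e3 : 2 * (μ * v) + β * v = T * v := by rw [hT, ← hm]; ring
      have e4 := Nat.div_add_mod (μ * v) T
      have e5 := Nat.div_add_mod (β * v) T
      rw [hv] at e5
      have e6 : T * (2 * (μ * v / T) + β * v / T) + (2 * ((μ * v) % T) + 1) = T * v := by
        rw [← e3]
        nlinarith
      have e7 : T ∣ T * (2 * (μ * v / T) + β * v / T) + (2 * ((μ * v) % T) + 1) := by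
        rw [e6]; exact Dvd.intro _ rfl
      exact (Nat.dvd_add_right (Dvd.intro _ rfl)).mp e7
    obtain ⟨x, hx⟩ := e2
    have hx1 : x = 1 := by
      rcases Nat.lt_or_ge x 2 with h | h
      · rcases Nat.eq_zero_or_pos x with h' | h'
        · rw [h', mul_zero] at hx; omega
        · omega
      · exfalso
        have : T * 2 ≤ T * x := Nat.mul_le_mul_left _ h
        omega
    rw [hx1, mul_one] at hx
    omega
  have hwμ : ∀ t, w (t + μ) = (w t + m) % T := by
    intro t
    rw [hw, hw, show (t + μ + 1) * v = (t + 1) * v + μ * v by ring, Nat.add_mod, hμv]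
  let u : ℕ → ℤ := fun t => if 2 * w t < T then 0 else -1
  have hu0 : ∀ t, 2 * w t < T → u t = 0 := fun t h => if_pos h
  have hu1 : ∀ t, T ≤ 2 * w t → u t = -1 := fun t h => if_neg (by omega)
  have hur : ∀ t, u t = 0 ∨ u t = -1 := by
    intro t
    rcases Nat.lt_or_ge (2 * w t) T with h | h
    · exact Or.inl (hu0 t h)
    · exact Or.inr (hu1 t h)
  have huβ : ∀ t, t + β + 1 < T → u (t + β) ≤ u t := by
    intro t ht
    have e1 := hwβ t ht
    rcases Nat.lt_or_ge (2 * w t) T with h | h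
    · rw [hu0 t h]
      rcases hur (t + β) with h' | h' <;> omega
    · rw [hu1 t h, hu1 (t + β) (by omega)]
  have huμ : ∀ t, t + 1 < T → t + μ + 1 < T → u (t + μ) ≠ u t := by
    intro t ht ht'
    have e1 := hwμ t
    have e2 := hw0 t ht
    have e3 := hwT t
    rcases Nat.lt_or_ge (2 * w t) T with h | h
    · rw [Nat.mod_eq_of_lt (by omega)] at e1
      rw [hu0 t h, hu1 (t + μ) (by omega)]
      norm_num
    · rw [Nat.mod_eq_sub_mod (by omega), Nat.mod_eq_of_lt (by omega)] at e1
      rw [hu1 t h, hu0 (t + μ) (by omega)]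
      norm_num
  -- indices
  have hdiv : ∀ i, i ≤ n → i / g + 1 < T := by
    intro i hi
    have : i < g * (T - 1) := by omega
    have := (Nat.div_lt_iff_lt_mul hg).mpr (by rw [mul_comm]; exact this)
    omega
  have hgz : (0 : ℤ) < g := by exact_mod_cast hg
  apply Bad_of (fun i => (g : ℤ) * (2 * (i / g : ℕ) + u (i / g)) + (i % g : ℕ))
  · intro i hi
    show (g : ℤ) * (2 * (i / g : ℕ) + u (i / g)) + (i % g : ℕ) <
      (g : ℤ) * (2 * ((i + 1) / g : ℕ) + u ((i + 1) / g)) + ((i + 1) % g : ℕ)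
    have e1 := Nat.div_add_mod i g
    have e2 := Nat.mod_lt i hg
    rcases Nat.lt_or_ge (i % g + 1) g with h | h
    · have e3 : (i + 1) / g = i / g := by
        rw [← e1]
        rw [show g * (i / g) + i % g + 1 = (i % g + 1) + g * (i / g) by ring,
          Nat.add_mul_div_left _ _ hg, Nat.div_eq_of_lt h, zero_add, e1]
      have e4 : (i + 1) % g = i % g + 1 := by
        conv_lhs => rw [← e1]
        rw [show g * (i / g) + i % g + 1 = (i % g + 1) + g * (i / g) by ring,
          Nat.add_mul_mod_self_left, Nat.mod_eq_of_lt h]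
      rw [e3, e4]
      push_cast
      linarith
    · have e5 : i + 1 = g * (i / g + 1) := by rw [mul_add]; omega
      have e3 : (i + 1) / g = i / g + 1 := by
        conv_lhs => rw [e5]
        rw [Nat.mul_div_cancel_left _ hg]
      have e4 : (i + 1) % g = 0 := by
        conv_lhs => rw [e5]
        rw [Nat.mul_mod_right]
      rw [e3, e4]
      have e6 : ((i % g : ℕ) : ℤ) = g - 1 := by omega
      rw [e6]
      push_cast
      rcases hur (i / g) with h7 | h7 <;> rcases hur (i / g + 1) with h8 | h8 <;>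
        rw [h7, h8] <;> nlinarith
  · intro i hi
    show (g : ℤ) * (2 * ((i + b) / g : ℕ) + u ((i + b) / g)) + ((i + b) % g : ℕ) ≤
      (g : ℤ) * (2 * (i / g : ℕ) + u (i / g)) + (i % g : ℕ) + ((2 * b : ℕ) : ℤ)
    have e1 : (i + b) / g = i / g + β := by rw [hb, Nat.add_mul_div_left _ _ hg]
    have e2 : (i + b) % g = i % g := by rw [hb, Nat.add_mul_mod_self_left]
    have e3 := hdiv (i + b) hi
    rw [e1] at e3
    have e4 := huβ (i / g) (by omega)
    rw [e1, e2, hb]
    push_cast
    nlinarith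
  · intro i j hij hj he
    have he' : ((g : ℤ) * (2 * (j / g : ℕ) + u (j / g)) + (j % g : ℕ)) -
      ((g : ℤ) * (2 * (i / g : ℕ) + u (i / g)) + (i % g : ℕ)) = k := he
    have e1 := Nat.mod_lt i hg
    have e2 := Nat.mod_lt j hg
    have e3 := hdiv i (by omega)
    have e4 := hdiv j hj
    rw [hk] at he'
    push_cast at he'
    have e5 : ((j % g : ℕ) : ℤ) - (i % g : ℕ) =
        g * (2 * (μ : ℤ) - (2 * (j / g : ℕ) + u (j / g)) + (2 * (i / g : ℕ) + u (i / g))) := by
      push_cast; linarith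
    obtain ⟨z, hz⟩ : ∃ z : ℤ, z = 2 * (μ : ℤ) - (2 * (j / g : ℕ) + u (j / g)) +
      (2 * (i / g : ℕ) + u (i / g)) := ⟨_, rfl⟩
    rw [← hz] at e5
    have hz0 : z = 0 := by
      have e6 : ((j % g : ℕ) : ℤ) - (i % g : ℕ) < g := by omega
      have e7 : -(g : ℤ) < ((j % g : ℕ) : ℤ) - (i % g : ℕ) := by omega
      rw [e5] at e6 e7
      have h8 : z < 1 := by
        by_contra hc
        rw [not_lt] at hc
        nlinarith
      have h9 : -1 < z := by
        by_contra hc
        rw [not_lt] at hc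
        nlinarith
      omega
    rw [hz0] at hz
    rcases hur (i / g) with h7 | h7 <;> rcases hur (j / g) with h8 | h8
    · have : j / g = i / g + μ := by rw [h7, h8] at hz; omega
      rw [this] at h8 e4
      exact huμ (i / g) e3 e4 (by rw [h7, h8])
    · rw [h7, h8] at hz; omega
    · rw [h7, h8] at hz; omega
    · have : j / g = i / g + μ := by rw [h7, h8] at hz; omega
      rw [this] at h8 e4
      exact huμ (i / g) e3 e4 (by rw [h7, h8])

end Pool.Agent.H269.NBCK
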