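import Pool.Agent.H269.NBCK.Base

/-!
Trivial bounds, the range `c ≥ 2 b`, and the case of a hit at `n = b`.
-/

set_option autoImplicit false

namespace Pool.Agent.H269.NBCK

open Finset

/-- a sequence that need not start at `0` -/
lemma Bad_of {b c k n : ℕ} (a : ℕ → ℤ) (h1 : ∀ i, i < n → a i < a (i + 1))
    (h2 : ∀ i, i + b ≤ n → a (i + b) ≤ a i + c)
    (h3 : ∀ i j, i < j → j ≤ n → a j - a i ≠ k) : Bad b c k n := by
  refine ⟨fun i => a i - a 0, ⟨by simp, ?_, ?_⟩, ?_⟩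
  · intro i hi
    have := h1 i hi
    show a i - a 0 < a (i + 1) - a 0
    omega
  · intro i hi
    have := h2 i hi
    show a (i + b) - a 0 ≤ a i - a 0 + c
    omega
  · rintro ⟨i, j, hij, hj, he⟩
    have he' : (a j - a 0) - (a i - a 0) = k := he
    exact h3 i j hij hj (by omega)

lemma Bad_lt_b {b c k n : ℕ} (hn : n < b) : Bad b c k n := by
  apply Bad_of (fun i => ((k : ℤ) + 1) * i)
  · intro i hi
    push_cast
    have : (0 : ℤ) ≤ k := by positivity
    nlinarith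
  · intro i hi
    omega
  · intro i j hij hj he
    have h0 : (0 : ℤ) ≤ k := by positivity
    have h1 : ((k : ℤ) + 1) * (j - i) = k := by
      rw [mul_sub]; exact he
    have h2 : (1 : ℤ) ≤ j - i := by omega
    nlinarith

lemma Bad_lt_k {b c k n : ℕ} (hbc : b ≤ c) (hn : n < k) : Bad b c k n := by
  apply Bad_of (fun i => (i : ℤ))
  · intro i hi
    push_cast; omega
  · intro i hi
    push_cast; omega
  · intro i j hij hj he
    omega

lemma N_top {b c k : ℕ} (h : ∀ n, Bad b c k n) : N b c k = ⊤ := by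
  unfold N
  rw [show {n : ℕ | 0 < n ∧ ∀ a : ℕ → ℤ, Adm b c n a → Hits k n a} = ∅ from ?_]
  · simp
  · ext n
    simp only [Set.mem_ofPred_eq, Set.mem_empty_iff_false, iff_false]
    rintro ⟨_, hn⟩
    obtain ⟨a, ha, ha'⟩ := h n
    exact ha' (hn a ha)

lemma spread_mul {k n : ℕ} {a : ℕ → ℤ} (h : ∀ i, i < n → a i < a (i + 1)) (hk : ¬ Hits k n a)
    (hk0 : 0 < k) (j m : ℕ) (hj : j + m * k ≤ n) : a j + 2 * (m * k) ≤ a (j + m * k) := by
  induction m with
  | zero => simp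
  | succ m ih =>
    have e : j + (m + 1) * k = j + m * k + k := by ring
    rw [e] at hj ⊢
    have h1 := ih (by omega)
    have h2 := spread h hk hk0 (j + m * k) hj
    push_cast
    linarith

/-- the case in which `k` is hit at once -/
lemma hit_b {b c k : ℕ} (hk0 : 0 < k) (hc : c < b + k * (b / k)) : ¬ Bad b c k b := by
  rintro ⟨a, ⟨h1, h2, h3⟩, h4⟩
  have e0 : b / k * k ≤ b := Nat.div_mul_le_self b k
  have e1 := spread_mul h2 h4 hk0 0 (b / k) (by omega)
  have e2 := gap h2 (0 + b / k * k) b (by omega) le_rfl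
  have e3 := h3 0 (by omega)
  rw [zero_add] at e1 e2 e3
  rw [h1] at e1 e3
  have e4 : (c : ℤ) < b + k * (b / k : ℕ) := by exact_mod_cast hc
  have e5 : ((b / k * k : ℕ) : ℤ) = (k : ℤ) * (b / k : ℕ) := by push_cast; ring
  rw [e5] at e2
  have e6 : ((b / k : ℕ) : ℤ) * (k : ℤ) = (k : ℤ) * (b / k : ℕ) := by ring
  rw [e6] at e1
  linarith

/-- `c > 2 b` -/
lemma Bad_big {b c k : ℕ} (hk0 : 0 < k) (hc : 2 * b < c) (n : ℕ) : Bad b c k n := by
  rcases Nat.even_or_odd' k with ⟨κ, hκ | hκ⟩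
  · have hκ0 : 0 < κ := by omega
    apply Bad_of (fun i => (((2 * i + (i / κ) % 2 : ℕ)) : ℤ))
    · intro i hi
      have h1 : i / κ % 2 < 2 := Nat.mod_lt _ (by norm_num)
      have h2 : (i + 1) / κ % 2 < 2 := Nat.mod_lt _ (by norm_num)
      have : 2 * i + i / κ % 2 < 2 * (i + 1) + (i + 1) / κ % 2 := by omega
      exact_mod_cast this
    · intro i hi
      have h1 : i / κ % 2 < 2 := Nat.mod_lt _ (by norm_num)
      have h2 : (i + b) / κ % 2 < 2 := Nat.mod_lt _ (by norm_num)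
      have : 2 * (i + b) + (i + b) / κ % 2 ≤ 2 * i + i / κ % 2 + c := by omega
      exact_mod_cast this
    · intro i j hij hj he
      have h1 : i / κ % 2 < 2 := Nat.mod_lt _ (by norm_num)
      have h2 : j / κ % 2 < 2 := Nat.mod_lt _ (by norm_num)
      have h3 : j = i + κ := by omega
      have h4 : (i + κ) / κ = i / κ + 1 := Nat.add_div_right i hκ0
      rw [h3, h4] at he
      rw [h3, h4] at h2
      omega
  · apply Bad_of (fun i => 2 * (i : ℤ))
    · intro i hi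
      push_cast; omega
    · intro i hi
      push_cast; omega
    · intro i j hij hj he
      omega

/-- `c = 2 b` and `v₂ k ≤ v₂ b` -/
lemma Bad_eq {b k v : ℕ} (hv : 2 ^ v ∣ b) (hk : 2 ^ v ∣ k) (hk' : ¬ 2 ^ (v + 1) ∣ k) (n : ℕ) :
    Bad b (2 * b) k n := by
  have hp : 0 < 2 ^ v := by positivity
  apply Bad_of (fun i => (((2 ^ (v + 1) * (i / 2 ^ v) + i % 2 ^ v : ℕ)) : ℤ))
  · intro i hi
    have h1 := Nat.div_add_mod i (2 ^ v)
    have h2 := Nat.div_add_mod (i + 1) (2 ^ v)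
    have h3 := Nat.mod_lt i hp
    have h4 := Nat.mod_lt (i + 1) hp
    have h5 : i / 2 ^ v ≤ (i + 1) / 2 ^ v := Nat.div_le_div_right (by omega)
    have h6 : 2 ^ v * (i / 2 ^ v) ≤ 2 ^ v * ((i + 1) / 2 ^ v) := Nat.mul_le_mul_left _ h5
    have : 2 ^ (v + 1) * (i / 2 ^ v) + i % 2 ^ v <
        2 ^ (v + 1) * ((i + 1) / 2 ^ v) + (i + 1) % 2 ^ v := by
      rw [pow_succ, mul_right_comm, mul_right_comm (2 ^ v) 2]
      omega
    exact_mod_cast this
  · intro i hi
    obtain ⟨m, hm⟩ := hv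
    have h1 : (i + b) / 2 ^ v = i / 2 ^ v + m := by
      rw [hm, Nat.add_mul_div_left _ _ hp]
    have h2 : (i + b) % 2 ^ v = i % 2 ^ v := by
      rw [hm, Nat.add_mul_mod_self_left]
    rw [h1, h2]
    have : 2 ^ (v + 1) * (i / 2 ^ v + m) + i % 2 ^ v ≤
        2 ^ (v + 1) * (i / 2 ^ v) + i % 2 ^ v + 2 * b := by
      rw [hm, pow_succ]
      apply le_of_eq
      ring
    exact_mod_cast this
  · intro i j hij hj he
    apply hk'
    have h1 := Nat.div_add_mod i (2 ^ v)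
    have h2 := Nat.div_add_mod j (2 ^ v)
    have h3 : (2 ^ (v + 1) * (j / 2 ^ v) + j % 2 ^ v : ℕ) =
        2 ^ (v + 1) * (i / 2 ^ v) + i % 2 ^ v + k := by
      have : ((2 ^ (v + 1) * (j / 2 ^ v) + j % 2 ^ v : ℕ) : ℤ) =
        ((2 ^ (v + 1) * (i / 2 ^ v) + i % 2 ^ v : ℕ) : ℤ) + (k : ℕ) := by linarith
      exact_mod_cast this
    have h4 : j % 2 ^ v = i % 2 ^ v := by
      have e := congrArg (fun z => z % 2 ^ v) h3
      obtain ⟨κ, hκ⟩ := hk
      rw [pow_succ, hκ, show 2 ^ v * 2 * (j / 2 ^ v) + j % 2 ^ v = j % 2 ^ v + 2 ^ v * (2 * (j / 2 ^ v)) by ring,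
        show 2 ^ v * 2 * (i / 2 ^ v) + i % 2 ^ v + 2 ^ v * κ = i % 2 ^ v + 2 ^ v * (2 * (i / 2 ^ v) + κ) by ring,
        Nat.add_mul_mod_self_left, Nat.add_mul_mod_self_left, Nat.mod_mod, Nat.mod_mod] at e
      exact e
    rw [h4] at h3
    have h5 : i / 2 ^ v ≤ j / 2 ^ v := Nat.div_le_div_right (by omega)
    refine ⟨j / 2 ^ v - i / 2 ^ v, ?_⟩
    rw [Nat.mul_sub]
    omega

end Pool.Agent.H269.NBCK
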