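import Pool.Agent.H269.NBCK.Upper

/-!
The lower bound for `b < k`, `c < 2 b`: an explicit sequence.
-/

set_option autoImplicit false

namespace Pool.Agent.H269.NBCK

open Finset

/-- blocks of `d` consecutive integers, with period `D` -/
def P (d D l : ℕ) : ℕ := D * (l / d) + l % d

lemma P_small {d D l : ℕ} (h : l < d) : P d D l = l := by
  unfold P
  rw [Nat.div_eq_of_lt h, Nat.mod_eq_of_lt h]; simp

lemma P_add {d D l : ℕ} (hd : 0 < d) : P d D (l + d) = P d D l + D := by
  unfold P
  rw [Nat.add_div_right _ hd, Nat.add_mod_right]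
  ring

lemma P_succ {d D l : ℕ} (hd : 0 < d) (hD : d ≤ D) : P d D l < P d D (l + 1) := by
  unfold P
  have h1 := Nat.div_add_mod l d
  have h2 := Nat.div_add_mod (l + 1) d
  have h3 := Nat.mod_lt l hd
  have h4 := Nat.mod_lt (l + 1) hd
  have h5 : l / d ≤ (l + 1) / d := Nat.div_le_div_right (by omega)
  obtain ⟨x, hx⟩ : ∃ x, (l + 1) / d = l / d + x := ⟨(l + 1) / d - l / d, by omega⟩
  rw [hx] at h2 ⊢
  have h6 : d * x ≤ D * x := Nat.mul_le_mul_right _ hD
  rw [mul_add] at h2 ⊢
  omega

lemma P_mono {d D : ℕ} (hd : 0 < d) (hD : d ≤ D) : StrictMono (P d D) :=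
  strictMono_nat_of_lt_succ (fun _ => P_succ hd hD)

lemma P_lt {d D Q s l : ℕ} (hd : 0 < d) (hD : d ≤ D) (hs : s ≤ d) (hl : l < d * Q + s) :
    P d D l < D * Q + s := by
  unfold P
  have h1 := Nat.div_add_mod l d
  have h3 := Nat.mod_lt l hd
  rcases lt_trichotomy (l / d) Q with h | h | h
  · obtain ⟨x, hx⟩ : ∃ x, Q = l / d + 1 + x := ⟨Q - (l / d + 1), by omega⟩
    have : D * (l / d) + D ≤ D * Q := by
      rw [hx]; nlinarith [Nat.zero_le (D * x)]
    omega
  · rw [h] at h1 ⊢
    omega
  · exfalso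
    obtain ⟨x, hx⟩ : ∃ x, l / d = Q + 1 + x := ⟨l / d - (Q + 1), by omega⟩
    rw [hx] at h1
    have : d * Q + d ≤ d * (Q + 1 + x) := by nlinarith [Nat.zero_le (d * x)]
    omega

lemma P_ne {d h D l l' : ℕ} (hd : 0 < d) (hh : 0 < h) (hD : D = d + h) :
    P d D l ≠ d + P h D l' := by
  unfold P
  have h3 := Nat.mod_lt l hd
  have h4 := Nat.mod_lt l' hh
  intro he
  rcases lt_trichotomy (l / d) (l' / h) with hx | hx | hx
  · have : D * (l / d) + D ≤ D * (l' / h) := by nlinarith
    omega
  · rw [hx] at he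
    omega
  · have : D * (l' / h) + D ≤ D * (l / d) := by nlinarith
    omega

/-- the explicit avoiding sequence -/
lemma lower {b c k q r e : ℕ} (hb : 0 < b) (hbc : b ≤ c) (hc : c < 2 * b) (hbk : b < k)
    (hq : c = b + q * (2 * k - c) + r) (hr : r < 2 * k - c) (he : e = r + c - (k + b))
    (hne : 1 ≤ q ∨ 1 ≤ e) :
    Bad b c k (k + (k - b) * q + e - 1) := by
  obtain ⟨d, hd⟩ : ∃ d, k = b + d := ⟨k - b, by omega⟩
  obtain ⟨δ, hδ⟩ : ∃ δ, 2 * b = c + δ := ⟨2 * b - c, by omega⟩
  obtain ⟨h, hh⟩ : ∃ h, h = d + δ := ⟨_, rfl⟩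
  obtain ⟨D, hD⟩ : ∃ D, D = d + h := ⟨_, rfl⟩
  have hd0 : 0 < d := by omega
  have hδ0 : 0 < δ := by omega
  have hh0 : 0 < h := by omega
  have hDe : 2 * k - c = D := by omega
  rw [hDe] at hq hr
  have hkd : k - b = d := by omega
  rw [hkd]
  obtain ⟨K, hK⟩ : ∃ K, K + δ = k := ⟨k - δ, by omega⟩
  have hqc : q * D = D * q := mul_comm _ _
  rw [hqc] at hq
  have hKq : K = d + D * q + r := by omega
  have hdh : d ≤ D := by omega
  have hhD : h ≤ D := by omega
  -- e
  have hee : e = r - h := by omega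
  have hed : e < d := by omega
  obtain ⟨E, hE⟩ : ∃ E, E = d * (q + 1) + e := ⟨_, rfl⟩
  obtain ⟨E2, hE2⟩ : ∃ E2, E2 = d * q + e := ⟨_, rfl⟩
  have hE12 : E = E2 + d := by rw [hE, hE2]; ring
  have hm1 : D * q = d * q + h * q := by rw [hD]; ring
  obtain ⟨G, hG⟩ : ∃ G, G = h * q + (r - e) := ⟨_, rfl⟩
  have hKEG : K = E + G := by
    rw [hKq, hE12, hG, hE2, hm1]; omega
  have hGh : h ≤ G := by
    rcases hne with h1 | h1
    · have : h * 1 ≤ h * q := Nat.mul_le_mul_left _ h1
      omega
    · omega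
  have hE2pos : 0 < E2 := by
    rcases hne with h1 | h1
    · have : d * 1 ≤ d * q := Nat.mul_le_mul_left _ h1
      omega
    · omega
  -- bounds for P
  have hPE : ∀ l, l < E → P d D l < K := by
    intro l hl
    rcases Nat.eq_zero_or_pos e with h0 | h0
    · have := P_lt (Q := q) (s := d) hd0 hdh le_rfl (l := l) (by rw [hE, h0] at hl; rw [mul_add] at hl; omega)
      omega
    · have := P_lt (Q := q + 1) (s := e) hd0 hdh hed.le (l := l) (by rw [hE] at hl; exact hl)
      rw [mul_add] at this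
      omega
  have hPG : ∀ l, l < G → d + P h D l < K := by
    intro l hl
    have := P_lt (Q := q) (s := r - e) hh0 hhD (by omega) (l := l) (by rw [hG] at hl; exact hl)
    omega
  have hPE2 : ∀ l, l < E → d ≤ l → D ≤ P d D l := by
    intro l hl hl'
    have : P d D l = P d D (l - d) + D := by
      rw [← P_add hd0]
      congr 1
      omega
    omega
  obtain ⟨n, hn⟩ : ∃ n, n = k + d * q + e - 1 := ⟨_, rfl⟩
  rw [← hn]
  have hn2 : n + 1 = k + E2 := by omega
  have hkE : k = E + δ + G := by omega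
  -- the sequence
  let a : ℕ → ℤ := fun i =>
    if i < E then (K : ℤ) - 1 - P d D (E - 1 - i)
    else if i < E + δ then (K : ℤ) + (i - E)
    else if i < k then (k : ℤ) + K - 1 - d - P h D (k - 1 - i)
    else 2 * (k : ℤ) + K - 1 - P d D (E - 1 - (i - k))
  have a1 : ∀ i, i < E → a i = (K : ℤ) - 1 - P d D (E - 1 - i) := by
    intro i hi
    show (if i < E then (K : ℤ) - 1 - P d D (E - 1 - i) else _) = _
    rw [if_pos hi]
  have a2 : ∀ i, E ≤ i → i < E + δ → a i = (K : ℤ) + (i - E) := by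
    intro i hi hi'
    show (if i < E then (K : ℤ) - 1 - P d D (E - 1 - i) else _) = _
    rw [if_neg (by omega), if_pos hi']
  have a3 : ∀ i, E + δ ≤ i → i < k → a i = (k : ℤ) + K - 1 - d - P h D (k - 1 - i) := by
    intro i hi hi'
    show (if i < E then (K : ℤ) - 1 - P d D (E - 1 - i) else _) = _
    rw [if_neg (by omega), if_neg (by omega), if_pos hi']
  have a4 : ∀ i, k ≤ i → a i = 2 * (k : ℤ) + K - 1 - P d D (E - 1 - (i - k)) := by
    intro i hi
    show (if i < E then (K : ℤ) - 1 - P d D (E - 1 - i) else _) = _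
    rw [if_neg (by omega), if_neg (by omega), if_neg (by omega)]
  have hmono : ∀ i, i < n → a i < a (i + 1) := by
    intro i hi
    rcases Nat.lt_or_ge (i + 1) E with c1 | c1
    · rw [a1 i (by omega), a1 (i + 1) c1]
      have := P_succ (l := E - 1 - (i + 1)) hd0 hdh
      rw [show E - 1 - (i + 1) + 1 = E - 1 - i by omega] at this
      omega
    · rcases Nat.lt_or_ge i E with c2 | c2
      · rw [a1 i c2, a2 (i + 1) (by omega) (by omega)]
        rw [show E - 1 - i = 0 by omega, P_small hd0]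
        push_cast; omega
      · rcases Nat.lt_or_ge (i + 1) (E + δ) with c3 | c3
        · rw [a2 i c2 (by omega), a2 (i + 1) (by omega) c3]
          push_cast; omega
        · rcases Nat.lt_or_ge i (E + δ) with c4 | c4
          · rw [a2 i c2 c4, a3 (i + 1) c3 (by omega)]
            have := hPG (k - 1 - (i + 1)) (by omega)
            push_cast; omega
          · rcases Nat.lt_or_ge (i + 1) k with c5 | c5
            · rw [a3 i c4 (by omega), a3 (i + 1) c3 c5]
              have := P_succ (l := k - 1 - (i + 1)) hh0 hhD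
              rw [show k - 1 - (i + 1) + 1 = k - 1 - i by omega] at this
              omega
            · rcases Nat.lt_or_ge i k with c6 | c6
              · rw [a3 i c4 c6, a4 (i + 1) c5]
                rw [show k - 1 - i = 0 by omega, P_small hh0]
                have := hPE (E - 1 - (i + 1 - k)) (by omega)
                push_cast; omega
              · rw [a4 i c6, a4 (i + 1) c5]
                have := P_succ (l := E - 1 - (i + 1 - k)) hd0 hdh
                rw [show E - 1 - (i + 1 - k) + 1 = E - 1 - (i - k) by omega] at this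
                omega
  have ha0 : 0 ≤ a 0 := by
    rw [a1 0 (by omega)]
    have := hPE (E - 1 - 0) (by omega)
    omega
  apply Bad_of a hmono
  · intro i hi
    have hiE : i < E := by omega
    rcases Nat.lt_or_ge i d with c1 | c1
    · rw [a3 (i + b) (by omega) (by omega)]
      rw [show k - 1 - (i + b) = d - 1 - i by omega, P_small (by omega)]
      have := gap hmono 0 i (by omega) (by omega)
      rw [show ((d - 1 - i : ℕ) : ℤ) = d - 1 - i by omega]
      push_cast at this
      omega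
    · rw [a4 (i + b) (by omega), a1 i hiE]
      rw [show E - 1 - (i + b - k) = E - 1 - i + d by omega, P_add hd0]
      push_cast; omega
  · intro i j hij hj hcon
    have ranges : ∀ i, i ≤ n →
        (∃ l, l < E ∧ a i = (K : ℤ) - 1 - P d D l) ∨
        ((K : ℤ) ≤ a i ∧ a i < k) ∨
        (∃ l, l < G ∧ a i = (k : ℤ) + K - 1 - d - P h D l) ∨
        (∃ l, l < E ∧ a i = 2 * (k : ℤ) + K - 1 - P d D l) := by
      intro i hi
      rcases Nat.lt_or_ge i E with c1 | c1
      · exact Or.inl ⟨_, by omega, a1 i c1⟩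
      · rcases Nat.lt_or_ge i (E + δ) with c2 | c2
        · refine Or.inr (Or.inl ?_)
          rw [a2 i c1 c2]
          refine ⟨by omega, by omega⟩
        · rcases Nat.lt_or_ge i k with c3 | c3
          · exact Or.inr (Or.inr (Or.inl ⟨_, by omega, a3 i c2 c3⟩))
          · exact Or.inr (Or.inr (Or.inr ⟨_, by omega, a4 i c3⟩))
    rcases ranges i (by omega) with ⟨l, hl, e1⟩ | ⟨e1, e1'⟩ | ⟨l, hl, e1⟩ | ⟨l, hl, e1⟩
    · have f1 := hPE l hl
      rcases ranges j hj with ⟨l', hl', e2⟩ | ⟨e2, e2'⟩ | ⟨l', hl', e2⟩ | ⟨l', hl', e2⟩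
      · have f2 := hPE l' hl'; omega
      · omega
      · have := P_ne (l := l) (l' := l') hd0 hh0 hD
        omega
      · have f2 := hPE l' hl'; omega
    · rcases ranges j hj with ⟨l', hl', e2⟩ | ⟨e2, e2'⟩ | ⟨l', hl', e2⟩ | ⟨l', hl', e2⟩
      · have f2 := hPE l' hl'; omega
      · omega
      · have f2 := hPG l' hl'; omega
      · have f2 := hPE l' hl'; omega
    · have f1 := hPG l hl
      rcases ranges j hj with ⟨l', hl', e2⟩ | ⟨e2, e2'⟩ | ⟨l', hl', e2⟩ | ⟨l', hl', e2⟩
      · have f2 := hPE l' hl'; omega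
      · omega
      · have f2 := hPG l' hl'; omega
      · have := P_ne (l := l') (l' := l) hd0 hh0 hD
        omega
    · have f1 := hPE l hl
      rcases ranges j hj with ⟨l', hl', e2⟩ | ⟨e2, e2'⟩ | ⟨l', hl', e2⟩ | ⟨l', hl', e2⟩
      · have f2 := hPE l' hl'; omega
      · omega
      · have f2 := hPG l' hl'; omega
      · have f2 := hPE l' hl'; omega

end Pool.Agent.H269.NBCK
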