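import Pool.Agent.H269.NBCK.Low

/-!
The upper bound for `b < k`, `c < 2 b`.
-/

set_option autoImplicit false

namespace Pool.Agent.H269.NBCK

open Finset

/-- a long sequence avoiding `k` has `a (n - b)` small -/
lemma end_small {b c k n : ℕ} {a : ℕ → ℤ} (hb : 0 < b) (hbc : b ≤ c) (hc : c < 2 * b)
    (hk0 : 0 < k) (hA : Adm b c n a) (h4 : ¬ Hits k n a) (hn : b ≤ n) :
    a (n - b) + 2 * b < k + c := by
  classical
  obtain ⟨h1, h2, h3⟩ := hA
  have hwin := h3 (n - b) (by omega)
  rw [Nat.sub_add_cancel hn] at hwin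
  have hwin0 := h3 0 (by omega)
  rw [zero_add, h1] at hwin0
  by_contra hcon
  rw [not_lt] at hcon
  obtain ⟨s, hs⟩ : ∃ s, s = a (n - b) := ⟨_, rfl⟩
  rw [← hs] at hcon hwin
  rcases lt_or_ge s (k : ℤ) with hlt | hge
  · -- case 2
    obtain ⟨t, ht⟩ : ∃ t : ℕ, (t : ℤ) = k - s := ⟨(k - s).toNat, by omega⟩
    have ht1 : t + c ≤ 2 * b := by omega
    have hcnt := count h2 h4 hk0 (n - b + t) (n + 1) 0 (b + 1 - t) (by omega) (by omega)
      (by omega) (by omega) (k : ℤ) (s + c + 1) (by omega) (by
        intro i hi hi'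
        have e1 := gap h2 (n - b) i (by omega) (by omega)
        have e2 := gap h2 i n (by omega) (by omega)
        push_cast [Nat.cast_sub hn] at e1
        refine ⟨by omega, by omega⟩) (by
        intro i hi hi'
        have e1 := gap h2 0 i (by omega) (by omega)
        have e2 := gap h2 i b (by omega) (by omega)
        rw [h1] at e1
        push_cast at e1 e2
        refine ⟨by omega, by omega⟩)
    push_cast [Nat.cast_sub hn, Nat.cast_sub (show t ≤ b + 1 by omega)] at hcnt
    omega
  · -- case 1
    have hex : ∃ j, s - k ≤ a j := ⟨n - b, by omega⟩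
    set j1 := Nat.find hex with hj1
    have p1 : s - k ≤ a j1 := Nat.find_spec hex
    have p2 : j1 ≤ n - b := Nat.find_min' hex (by omega)
    have p3 : ∀ i, i < j1 → a i < s - k := by
      intro i hi
      exact not_le.mp (Nat.find_min hex hi)
    have hcnt := count h2 h4 hk0 (n - b) (n + 1) j1 (j1 + b) (by omega) (by omega)
      (by omega) (by omega) s (s + c + 1) (by omega) (by
        intro i hi hi'
        have e1 := gap h2 (n - b) i (by omega) (by omega)
        have e2 := gap h2 i n (by omega) (by omega)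
        refine ⟨by omega, by omega⟩) (by
        intro i hi hi'
        have e1 := gap h2 j1 i (by omega) (by omega)
        refine ⟨by omega, ?_⟩
        rcases Nat.eq_zero_or_pos j1 with hz | hz
        · have e2 := gap h2 i b (by omega) (by omega)
          omega
        · have e2 := h3 (j1 - 1) (by omega)
          have e3 := p3 (j1 - 1) (by omega)
          have e4 := gap h2 i (j1 - 1 + b) (by omega) (by omega)
          omega)
    push_cast [Nat.cast_sub hn] at hcnt
    omega

/-- steps of length `k - b` -/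
lemma chain {b c k n : ℕ} {a : ℕ → ℤ} (hbk : b < k) (hA : Adm b c n a) (h4 : ¬ Hits k n a)
    (i p : ℕ) (hp : i + p * (k - b) + b ≤ n) : a i + p * (2 * k - c) ≤ a (i + p * (k - b)) := by
  obtain ⟨h1, h2, h3⟩ := hA
  induction p with
  | zero => simp
  | succ p ih =>
    have e : i + (p + 1) * (k - b) = i + p * (k - b) + (k - b) := by ring
    rw [e] at hp ⊢
    have e1 := ih (by omega)
    have e2 := spread h2 h4 (by omega) (i + p * (k - b)) (by omega)
    have e3 := h3 (i + p * (k - b) + (k - b)) (by omega)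
    rw [show i + p * (k - b) + (k - b) + b = i + p * (k - b) + k by omega] at e3
    push_cast
    linarith

/-- the upper bound -/
lemma upper {b c k q r e : ℕ} (hb : 0 < b) (hbc : b ≤ c) (hc : c < 2 * b) (hbk : b < k)
    (hq : c = b + q * (2 * k - c) + r) (he : r + c ≤ e + (k + b)) :
    ¬ Bad b c k (k + (k - b) * q + e) := by
  rintro ⟨a, hA, h4⟩
  obtain ⟨n, hn⟩ : ∃ n, n = k + (k - b) * q + e := ⟨_, rfl⟩
  rw [← hn] at hA h4
  have hbn : b ≤ n := by omega
  have e1 := end_small hb hbc hc (by omega) hA h4 hbn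
  have e0 : (k - b) * q = q * (k - b) := mul_comm _ _
  have e4 : (q + 1) * (k - b) = q * (k - b) + (k - b) := by ring
  have e3 : n - b = e + (q + 1) * (k - b) := by omega
  have e2 := chain hbk hA h4 e (q + 1) (by omega)
  rw [← e3] at e2
  have e5 := gap hA.2.1 0 e (by omega) (by omega)
  rw [hA.1] at e5
  have e6 : (c : ℤ) = b + q * (2 * k - c) + r := by
    have : ((2 * k - c : ℕ) : ℤ) = 2 * k - c := by
      rw [Nat.cast_sub (by omega)]; push_cast; ring
    rw [← this]
    exact_mod_cast hq
  push_cast at e2 e5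
  have e7 : ((q : ℤ) + 1) * (2 * k - c) = q * (2 * k - c) + (2 * k - c) := by ring
  rw [e7] at e2
  have e8 : (r : ℤ) + c ≤ e + (k + b) := by exact_mod_cast he
  linarith

end Pool.Agent.H269.NBCK
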